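import Mathlib

/-!
Disjoint copies of the bipartite complement of the Heawood graph, and the complement of that graph.
-/

set_option autoImplicit false

namespace Pool.Agent.H94ng

/-- A total dominating set: every vertex has a neighbour in `S`. -/
def IsTotalDom {V : Type} (G : SimpleGraph V) (S : Finset V) : Prop :=
  ∀ v, ∃ w ∈ S, G.Adj v w

/-- The total domination number: the least size of a total dominating set. -/
noncomputable def gammaT {V : Type} (G : SimpleGraph V) : ℕ :=
  sInf {k | ∃ S : Finset V, IsTotalDom G S ∧ S.card = k}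

/-- adjacency between point `i` and line `j` of the complement of the Fano plane -/
def pl (i j : Fin 7) : Bool := (i.val + 7 - j.val) % 7 == 2 || (i.val + 7 - j.val) % 7 == 4 ||
  (i.val + 7 - j.val) % 7 == 5 || (i.val + 7 - j.val) % 7 == 6

/-- adjacency in the bipartite complement of the Heawood graph -/
def hw : Bool × Fin 7 → Bool × Fin 7 → Bool
  | (false, i), (true, j) => pl i j
  | (true, j), (false, i) => pl i j
  | _, _ => false

theorem hw_symm : ∀ x y : Bool × Fin 7, hw x y = true → hw y x = true := by decide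

theorem hw_irrefl : ∀ x : Bool × Fin 7, hw x x = false := by decide

/-- `k` disjoint copies of the bipartite complement of the Heawood graph -/
def copies (k : ℕ) : SimpleGraph (Fin k × (Bool × Fin 7)) where
  Adj u v := u.1 = v.1 ∧ hw u.2 v.2 = true
  symm := ⟨fun u v h => ⟨h.1.symm, hw_symm _ _ h.2⟩⟩
  loopless := ⟨fun u h => by
    have := h.2
    rw [hw_irrefl] at this
    exact Bool.false_ne_true this⟩

instance (k : ℕ) : DecidableRel (copies k).Adj :=
  fun u v => inferInstanceAs (Decidable (u.1 = v.1 ∧ hw u.2 v.2 = true))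

theorem two_miss : ∀ j1 j2 : Fin 7,
    (∃ i : Fin 7, pl i j1 = false ∧ pl i j2 = false) ∧
    (∃ i : Fin 7, pl j1 i = false ∧ pl j2 i = false) := by decide

theorem three_le (T : Finset (Fin 7)) (b : Bool)
    (h : ∀ i : Fin 7, ∃ j ∈ T, hw (b, i) (!b, j) = true) : 3 ≤ T.card := by
  by_contra hc
  have h2 : ∃ j1 j2 : Fin 7, ∀ j ∈ T, j = j1 ∨ j = j2 := by
    have hcard : T.card = 0 ∨ T.card = 1 ∨ T.card = 2 := by omega
    rcases hcard with h0 | h0 | h0
    · rw [Finset.card_eq_zero] at h0
      subst h0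
      exact ⟨0, 0, by simp⟩
    · obtain ⟨a, rfl⟩ := Finset.card_eq_one.mp h0
      exact ⟨a, a, by simp⟩
    · obtain ⟨a, b, -, rfl⟩ := Finset.card_eq_two.mp h0
      exact ⟨a, b, by simp⟩
  obtain ⟨j1, j2, hj⟩ := h2
  obtain ⟨⟨i1, a1, a2⟩, ⟨i2, b1, b2⟩⟩ := two_miss j1 j2
  cases b
  · obtain ⟨j, hjT, hadj⟩ := h i1
    have hadj' : pl i1 j = true := hadj
    rcases hj j hjT with rfl | rfl
    · rw [a1] at hadj'; exact Bool.false_ne_true hadj'
    · rw [a2] at hadj'; exact Bool.false_ne_true hadj'
  · obtain ⟨j, hjT, hadj⟩ := h i2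
    have hadj' : pl j i2 = true := hadj
    rcases hj j hjT with rfl | rfl
    · rw [b1] at hadj'; exact Bool.false_ne_true hadj'
    · rw [b2] at hadj'; exact Bool.false_ne_true hadj'

theorem hw_side : ∀ (b : Bool) (i : Fin 7) (y : Bool × Fin 7), hw (b, i) y = true → y.1 = !b := by
  decide

/-- every total dominating set of `copies k` has at least `6 k` vertices -/
theorem six_le (k : ℕ) (S : Finset (Fin k × (Bool × Fin 7))) (hS : IsTotalDom (copies k) S) :
    6 * k ≤ S.card := by
  classical
  have h1 : ∀ (a : Fin k) (b : Bool),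
      3 ≤ (S.filter (fun v => v.1 = a ∧ v.2.1 = b)).card := by
    intro a b
    have h3 := three_le ((S.filter (fun v => v.1 = a ∧ v.2.1 = b)).image (fun v => v.2.2)) (!b) (by
      intro i
      obtain ⟨w, hw, hadj⟩ := hS (a, (!b, i))
      obtain ⟨h1, h2⟩ := hadj
      have hside := hw_side _ _ _ h2
      rw [Bool.not_not] at hside
      refine ⟨w.2.2, ?_, ?_⟩
      · apply Finset.mem_image_of_mem
        rw [Finset.mem_filter]
        exact ⟨hw, h1.symm, hside⟩
      · rw [Bool.not_not]
        rw [show (b, w.2.2) = w.2 from Prod.ext hside.symm rfl]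
        exact h2)
    exact h3.trans Finset.card_image_le
  have h2 : ∀ a : Fin k, 6 ≤ (S.filter (fun v => v.1 = a)).card := by
    intro a
    have hsplit : (S.filter (fun v => v.1 = a)).card =
        (S.filter (fun v => v.1 = a ∧ v.2.1 = false)).card +
        (S.filter (fun v => v.1 = a ∧ v.2.1 = true)).card := by
      rw [← Finset.card_union_of_disjoint]
      · congr 1
        ext v
        simp only [Finset.mem_filter, Finset.mem_union]
        constructor
        · rintro ⟨h, h'⟩
          cases hv : v.2.1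
          · exact Or.inl ⟨h, h', rfl⟩
          · exact Or.inr ⟨h, h', rfl⟩
        · rintro (⟨h, h', -⟩ | ⟨h, h', -⟩) <;> exact ⟨h, h'⟩
      · rw [Finset.disjoint_left]
        intro v hv hv'
        rw [Finset.mem_filter] at hv hv'
        rw [hv.2.2] at hv'
        exact Bool.false_ne_true hv'.2.2
    have := h1 a false
    have := h1 a true
    omega
  have h3 : S.card = ∑ a : Fin k, (S.filter (fun v => v.1 = a)).card :=
    Finset.card_eq_sum_card_fiberwise (fun v _ => Finset.mem_coe.mpr (Finset.mem_univ v.1))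
  rw [h3]
  calc 6 * k = ∑ _a : Fin k, 6 := by simp [mul_comm]
    _ ≤ _ := Finset.sum_le_sum (fun a _ => h2 a)

theorem two_le {V : Type} [Nonempty V] (G : SimpleGraph V) (S : Finset V)
    (hS : IsTotalDom G S) : 2 ≤ S.card := by
  obtain ⟨v⟩ := ‹Nonempty V›
  obtain ⟨w, hw, -⟩ := hS v
  obtain ⟨u, hu, hadj⟩ := hS w
  exact Finset.one_lt_card.mpr ⟨w, hw, u, hu, hadj.ne⟩

theorem le_gammaT {V : Type} [Fintype V] (G : SimpleGraph V) (m : ℕ)
    (hiso : ∀ v, ∃ w, G.Adj v w) (h : ∀ S : Finset V, IsTotalDom G S → m ≤ S.card) :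
    m ≤ gammaT G := by
  have hne : {k | ∃ S : Finset V, IsTotalDom G S ∧ S.card = k}.Nonempty :=
    ⟨_, Finset.univ, fun v => by
      obtain ⟨w, hw⟩ := hiso v
      exact ⟨w, Finset.mem_univ w, hw⟩, rfl⟩
  obtain ⟨S, hS, hk⟩ := Nat.sInf_mem hne
  unfold gammaT
  rw [← hk]
  exact h S hS

theorem hw_card : ∀ x : Bool × Fin 7, (Finset.univ.filter (fun y => hw x y = true)).card = 4 := by
  decide

theorem copies_degree (k : ℕ) (v : Fin k × (Bool × Fin 7))
    [Fintype ((copies k).neighborSet v)] : (copies k).degree v = 4 := by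
  have h : (copies k).neighborFinset v =
      (Finset.univ.filter (fun y => hw v.2 y = true)).map
        ⟨fun y => (v.1, y), fun y z h => (Prod.mk.inj h).2⟩ := by
    ext u
    simp only [SimpleGraph.mem_neighborFinset, Finset.mem_map, Finset.mem_filter,
      Finset.mem_univ, true_and]
    constructor
    · rintro ⟨h1, h2⟩
      exact ⟨u.2, h2, Prod.ext h1 rfl⟩
    · rintro ⟨y, hy, rfl⟩
      exact ⟨rfl, hy⟩
  rw [← SimpleGraph.card_neighborFinset_eq_degree, h, Finset.card_map, hw_card]

theorem minDegree_copies (k : ℕ) [Nonempty (Fin k × (Bool × Fin 7))]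
    (H : SimpleGraph (Fin k × (Bool × Fin 7))) [DecidableRel H.Adj] (h : H = copies k) :
    H.minDegree = 4 := by
  subst h
  have h : ∀ v, (copies k).degree v = 4 := fun v => copies_degree k v
  apply le_antisymm
  · obtain ⟨v⟩ := ‹Nonempty (Fin k × (Bool × Fin 7))›
    rw [← h v]
    exact SimpleGraph.minDegree_le_degree _ v
  · apply SimpleGraph.le_minDegree_of_forall_le_degree
    intro v
    rw [h]

theorem card_verts (k : ℕ) : Fintype.card (Fin k × (Bool × Fin 7)) = 14 * k := by
  simp; ring

/-- a connected graph of order `n ≥ n₀` with `δ* = 4`, whose total domination number is at least 2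
and whose complement has total domination number at least `3 n / 7` -/
theorem main (n₀ : ℕ) : ∃ (V : Type) (_ : Fintype V) (_ : DecidableEq V) (G : SimpleGraph V)
    (_ : DecidableRel G.Adj), n₀ ≤ Fintype.card V ∧ 0 < Fintype.card V ∧ G.Connected ∧
      min G.minDegree Gᶜ.minDegree = 4 ∧ 2 ≤ gammaT G ∧ 3 * Fintype.card V ≤ 7 * gammaT Gᶜ := by
  set k := n₀ + 2 with hk
  have : NeZero k := ⟨by omega⟩
  have : Nonempty (Fin k × (Bool × Fin 7)) := ⟨(⟨0, by omega⟩, (false, 0))⟩
  have hdeg : ∀ v, ((copies k)ᶜ).degree v = 14 * k - 1 - 4 := by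
    intro v
    rw [SimpleGraph.degree_compl, copies_degree, card_verts]
  have hadjc : ∀ u v : Fin k × (Bool × Fin 7), u.1 ≠ v.1 → ((copies k)ᶜ).Adj u v := by
    intro u v huv
    rw [SimpleGraph.compl_adj]
    exact ⟨fun h => huv (by rw [h]), fun h => huv h.1⟩
  have hiso : ∀ v, ∃ w, (copies k).Adj v w := by
    intro v
    have := copies_degree k v
    have hpos : 0 < (copies k).degree v := by omega
    rw [SimpleGraph.degree_pos_iff_exists_adj] at hpos
    exact hpos
  have hiso' : ∀ v, ∃ w, ((copies k)ᶜ).Adj v w := by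
    intro v
    have hpos : 0 < ((copies k)ᶜ).degree v := by
      rw [hdeg]; omega
    rw [SimpleGraph.degree_pos_iff_exists_adj] at hpos
    exact hpos
  refine ⟨Fin k × (Bool × Fin 7), inferInstance, inferInstance, (copies k)ᶜ, inferInstance,
    ?_, ?_, ?_, ?_, ?_, ?_⟩
  · rw [card_verts]; omega
  · rw [card_verts]; omega
  · rw [SimpleGraph.connected_iff]
    refine ⟨?_, inferInstance⟩
    intro u v
    by_cases huv : u.1 = v.1
    · obtain ⟨a, ha⟩ : ∃ a : Fin k, a ≠ u.1 := by
        by_cases h0 : u.1 = ⟨0, by omega⟩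
        · refine ⟨⟨1, by omega⟩, ?_⟩
          rw [h0]
          intro h
          simp at h
        · exact ⟨⟨0, by omega⟩, fun h => h0 h.symm⟩
      have h1 : ((copies k)ᶜ).Adj u (a, (false, 0)) := hadjc _ _ (Ne.symm ha)
      have h2 : ((copies k)ᶜ).Adj (a, (false, 0)) v := hadjc _ _ (by rw [← huv]; exact ha)
      exact h1.reachable.trans h2.reachable
    · exact (hadjc u v huv).reachable
  · have e1 : ((copies k)ᶜ).minDegree = 14 * k - 1 - 4 := by
      apply le_antisymm
      · obtain ⟨v⟩ := ‹Nonempty (Fin k × (Bool × Fin 7))›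
        rw [← hdeg v]
        exact SimpleGraph.minDegree_le_degree _ v
      · apply SimpleGraph.le_minDegree_of_forall_le_degree
        intro v
        rw [hdeg]
    have e2 : ((copies k)ᶜᶜ).minDegree = 4 := minDegree_copies k _ (compl_compl _)
    rw [e1, e2]
    omega
  · exact le_gammaT _ 2 hiso' (fun S hS => two_le _ S hS)
  · rw [compl_compl]
    have := le_gammaT (copies k) (6 * k) hiso (fun S hS => six_le k S hS)
    rw [card_verts]
    omega

end Pool.Agent.H94ng
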